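import Pool.Agent.H46.SK.Targets

/-!
# MP_2fe131_nt, module CHE: Chebyshev lower bound for one block
-/

namespace Pool.Agent.H32.SKCHE

open SK Finset

theorem ell (t : ℝ) (ht : 320 ≤ t) :
    0.4 * Real.exp t ≤ Chebyshev.theta (Real.exp t) - Chebyshev.theta (Real.exp (t - 2)) := by
  have h0 : 1 ≤ Real.exp t := by
    have := Real.add_one_le_exp t
    linarith
  have h1 := Chebyshev.theta_ge' h0
  have h2 := Chebyshev.theta_le_log4_mul_x (x := Real.exp (t - 2)) (Real.exp_pos _).le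
  rw [← Real.exp_half, Real.log_exp] at h1
  have hst : Real.exp t = Real.exp (t / 2) ^ 2 := by
    rw [← Real.exp_nat_mul]
    congr 1
    push_cast
    ring
  have hs := Real.quadratic_le_exp_of_nonneg (x := t / 2) (by linarith)
  set s := Real.exp (t / 2) with hsdef
  have hs1 : 40 * t + 1 ≤ s := by nlinarith
  have hlog2 : Real.log (Real.exp t + 2) ≤ t + 1 := by
    have h3 : Real.exp t + 2 ≤ Real.exp (t + 1) := by
      rw [Real.exp_add]
      have := Real.exp_one_gt_d9
      have h4 : 320 ≤ Real.exp t := by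
        have := Real.add_one_le_exp t
        linarith
      nlinarith
    calc Real.log (Real.exp t + 2) ≤ Real.log (Real.exp (t + 1)) :=
          Real.log_le_log (by positivity) h3
      _ = t + 1 := Real.log_exp _
  have he2 : Real.exp (t - 2) ≤ 0.1355 * Real.exp t := by
    have h5 : Real.exp t = Real.exp (t - 2) * Real.exp 1 ^ 2 := by
      rw [← Real.exp_nat_mul, ← Real.exp_add]
      congr 1
      push_cast
      ring
    have h6 := Real.exp_one_gt_d9
    have h7 : 7.389 ≤ Real.exp 1 ^ 2 := by nlinarith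
    have h8 := Real.exp_pos (t - 2)
    rw [h5]
    nlinarith
  have hl4 : Real.log 4 ≤ 1.3863 := by
    have : Real.log 4 = 2 * Real.log 2 := by
      rw [show (4 : ℝ) = 2 ^ 2 by norm_num, Real.log_pow]
      push_cast
      ring
    have := Real.log_two_lt_d9
    linarith
  have hl2 := Real.log_two_gt_d9
  have hl2' := Real.log_two_lt_d9
  have h9 : Real.log 4 * Real.exp (t - 2) ≤ 1.3863 * (0.1355 * Real.exp t) := by
    apply mul_le_mul hl4 he2 (Real.exp_pos _).le (by norm_num)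
  rw [hst] at h1 h9 ⊢
  rw [← hst] at h1
  rw [hst] at h1
  have h10 : (s ^ 2 - 1) * 0.6931 ≤ (s ^ 2 - 1) * Real.log 2 := by
    apply mul_le_mul_of_nonneg_left (by linarith)
    nlinarith
  rw [hst] at hlog2
  have h11 : 2 * s * t ≤ s ^ 2 / 20 := by nlinarith
  have h12 : t + 2 ≤ s ^ 2 / 1000 := by nlinarith
  rw [← hst] at h1 h9
  rw [← hst]
  rw [← hst] at h10 hlog2 h11 h12
  nlinarith

theorem interval (t : ℝ) (ht : 320 ≤ t) :
    0.4 / t ≤ ∑ p ∈ (Ioc ⌊Real.exp (t - 2)⌋₊ ⌊Real.exp t⌋₊).filter Nat.Prime, (1 : ℝ) / p := by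
  have h1 := ell t ht
  have hle : ⌊Real.exp (t - 2)⌋₊ ≤ ⌊Real.exp t⌋₊ :=
    Nat.floor_le_floor (Real.exp_le_exp.2 (by linarith))
  have h2 : Chebyshev.theta (Real.exp t) - Chebyshev.theta (Real.exp (t - 2)) =
      ∑ p ∈ (Ioc ⌊Real.exp (t - 2)⌋₊ ⌊Real.exp t⌋₊).filter Nat.Prime, Real.log p := by
    unfold Chebyshev.theta
    rw [sum_filter, sum_filter, sum_filter, ← sum_Ioc_consecutive _ (Nat.zero_le _) hle]
    ring
  rw [h2] at h1
  have ht0 : 0 < t := by linarith
  have h3 : ∀ p ∈ (Ioc ⌊Real.exp (t - 2)⌋₊ ⌊Real.exp t⌋₊).filter Nat.Prime,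
      Real.log p / (t * Real.exp t) ≤ (1 : ℝ) / p := by
    intro p hp
    have hp' := mem_filter.1 hp
    have hpp : (0 : ℝ) < p := by exact_mod_cast hp'.2.pos
    have hpe : (p : ℝ) ≤ Real.exp t := by
      have := (mem_Ioc.1 hp'.1).2
      exact (Nat.le_floor_iff (Real.exp_pos t).le).1 this
    have hlog : Real.log p ≤ t := by
      rw [← Real.log_exp t]
      exact Real.log_le_log hpp hpe
    rw [div_le_div_iff₀ (by positivity) hpp, one_mul]
    exact mul_le_mul hlog hpe hpp.le ht0.le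
  calc 0.4 / t = (0.4 * Real.exp t) / (t * Real.exp t) := by
        have := Real.exp_pos t
        field_simp
    _ ≤ (∑ p ∈ (Ioc ⌊Real.exp (t - 2)⌋₊ ⌊Real.exp t⌋₊).filter Nat.Prime, Real.log p) /
        (t * Real.exp t) := by
        apply div_le_div_of_nonneg_right h1 (by positivity)
    _ = ∑ p ∈ (Ioc ⌊Real.exp (t - 2)⌋₊ ⌊Real.exp t⌋₊).filter Nat.Prime,
        Real.log p / (t * Real.exp t) := by rw [sum_div]
    _ ≤ _ := sum_le_sum h3

theorem pf_CHE : TARGET_CHE := by
  refine ⟨3, ?_⟩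
  intro k R r hk hR hL hr1 hr2
  set L := Real.log k with hLdef
  have hR' : (3 : ℝ) ≤ R := by exact_mod_cast hR
  have hr3 : 9 ≤ r := le_trans (by nlinarith) hr1
  have hr : (9 : ℝ) ≤ r := by exact_mod_cast hr3
  have hrR : (r : ℝ) ≤ (R : ℝ) ^ 3 := by exact_mod_cast hr2
  have hr2L : 81 * (r : ℝ) ^ 2 ≤ L := by
    calc 81 * (r : ℝ) ^ 2 ≤ (R : ℝ) ^ 4 * ((R : ℝ) ^ 3) ^ 2 := by
          apply mul_le_mul _ _ (by positivity) (by positivity)
          · calc (81 : ℝ) = 3 ^ 4 := by norm_num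
              _ ≤ (R : ℝ) ^ 4 := pow_le_pow_left₀ (by norm_num) hR' 4
          · exact pow_le_pow_left₀ (by positivity) hrR 2
      _ = (R : ℝ) ^ 10 := by ring
      _ ≤ L := hL
  have hk0 : (0 : ℝ) < k := by exact_mod_cast hk.pos
  have hlr0 : 0 ≤ Real.log r := Real.log_natCast_nonneg r
  have hlr1 : Real.log r ≤ r - 1 := Real.log_le_sub_one_of_pos (by linarith)
  have h4r : (0 : ℝ) < 4 * r - 1 := by linarith
  have h2r : (0 : ℝ) < 2 * r - 1 := by linarith
  obtain ⟨a, ha⟩ : ∃ a : ℝ, a = 2 * L / (4 * r - 1) := ⟨_, rfl⟩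
  obtain ⟨b, hb⟩ : ∃ b : ℝ, b = (L - Real.log r) / (2 * r - 1) := ⟨_, rfl⟩
  have haL : a * (4 * r - 1) = 2 * L := by rw [ha]; field_simp
  have hbL : b * (2 * r - 1) = L - Real.log r := by rw [hb]; field_simp
  have ha0 : 320 ≤ a := by
    rw [ha, le_div_iff₀ h4r]
    nlinarith
  have hbr : b * r ^ 2 ≤ L * r := by
    have h1 : b * r ≤ L := by
      have hb0 : 0 ≤ b := by
        rw [hb]
        apply div_nonneg _ h2r.le
        nlinarith
      nlinarith
    nlinarith
  have hab : L - 8 * r ^ 2 ≤ 8 * r ^ 2 * (b - a) := by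
    have e1 : (b - a) * ((2 * r - 1) * (4 * r - 1)) = L - Real.log r * (4 * r - 1) := by
      calc (b - a) * ((2 * r - 1) * (4 * r - 1)) =
          (b * (2 * r - 1)) * (4 * r - 1) - (a * (4 * r - 1)) * (2 * r - 1) := by ring
        _ = L - Real.log r * (4 * r - 1) := by rw [haL, hbL]; ring
    have e2 : Real.log r * (4 * r - 1) ≤ (2 * r - 1) * (4 * r - 1) := by
      apply mul_le_mul_of_nonneg_right _ h4r.le
      linarith
    -- (b - a + 1) * D ≥ L with D ≤ 8 r^2
    have e3 : L ≤ (b - a + 1) * ((2 * r - 1) * (4 * r - 1)) := by nlinarith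
    have hD : 0 < (2 * r - 1) * (4 * (r : ℝ) - 1) := mul_pos h2r h4r
    have e4 : 0 ≤ b - a + 1 := by
      by_contra hc
      push Not at hc
      have := mul_neg_of_neg_of_pos hc hD
      nlinarith
    have e5 : (2 * r - 1) * (4 * (r : ℝ) - 1) ≤ 8 * r ^ 2 := by nlinarith
    have e6 := mul_le_mul_of_nonneg_left e5 e4
    nlinarith
  obtain ⟨J, hJ1, hJ2⟩ : ∃ J : ℕ, (J : ℝ) < (b - a) / 2 ∧ (b - a) / 2 - 1 ≤ J := by
    have hpos : 0 < (b - a) / 2 := by
      have : 0 < 8 * (r : ℝ) ^ 2 * (b - a) := by nlinarith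
      have h8 : 0 < 8 * (r : ℝ) ^ 2 := by positivity
      have h9 : 0 < b - a := by
        by_contra hc
        push Not at hc
        have := mul_nonpos_of_nonneg_of_nonpos h8.le hc
        linarith
      linarith
    refine ⟨⌈(b - a) / 2⌉₊ - 1, ?_, ?_⟩
    · have h1 : 1 ≤ ⌈(b - a) / 2⌉₊ := Nat.one_le_ceil_iff.2 hpos
      have h2 := Nat.ceil_lt_add_one hpos.le
      rw [Nat.cast_sub h1]
      push_cast
      linarith
    · have h1 : 1 ≤ ⌈(b - a) / 2⌉₊ := Nat.one_le_ceil_iff.2 hpos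
      have h2 := Nat.le_ceil ((b - a) / 2)
      rw [Nat.cast_sub h1]
      push_cast
      linarith
  obtain ⟨F, hF⟩ : ∃ F : ℕ → Finset ℕ, F = fun i : ℕ =>
      (Ioc ⌊Real.exp ((a + 2 * (i + 1)) - 2)⌋₊ ⌊Real.exp (a + 2 * (i + 1))⌋₊).filter Nat.Prime :=
    ⟨_, rfl⟩
  have hFm : ∀ i p, p ∈ F i → p.Prime ∧ a + 2 * i < Real.log p ∧ Real.log p ≤ a + 2 * (i + 1) := by
    intro i p hp
    rw [hF] at hp
    have hp' := mem_filter.1 hp
    have hpp : (0 : ℝ) < p := by exact_mod_cast hp'.2.pos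
    have h1 := (mem_Ioc.1 hp'.1).1
    have h2 := (mem_Ioc.1 hp'.1).2
    refine ⟨hp'.2, ?_, ?_⟩
    · have h3 : Real.exp (a + 2 * (i + 1) - 2) < p := Nat.lt_of_floor_lt h1
      rw [Real.lt_log_iff_exp_lt hpp]
      have : a + 2 * (i : ℝ) = a + 2 * (i + 1) - 2 := by ring
      rw [this]
      exact h3
    · have h3 : (p : ℝ) ≤ Real.exp (a + 2 * (i + 1)) :=
        (Nat.le_floor_iff (Real.exp_pos _).le).1 h2
      rw [Real.log_le_iff_le_exp hpp]
      exact h3
  have hsub : (range J).biUnion F ⊆ blk k r := by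
    intro p hp
    obtain ⟨i, hi, hpi⟩ := mem_biUnion.1 hp
    obtain ⟨hpr, hp1, hp2⟩ := hFm i p hpi
    have hiJ : (i : ℝ) + 1 ≤ J := by exact_mod_cast mem_range.1 hi
    have hpp : (0 : ℝ) < p := by exact_mod_cast hpr.pos
    have hi0 : (0 : ℝ) ≤ i := Nat.cast_nonneg i
    have hpa : a < Real.log p := by linarith
    have hpb : Real.log p < b := by linarith
    have hr1' : 1 ≤ r := by omega
    have c2 : ((2 * r - 1 : ℕ) : ℝ) = 2 * r - 1 := by
      rw [Nat.cast_sub (by omega)]; push_cast; ring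
    have c4 : ((4 * r - 1 : ℕ) : ℝ) = 4 * r - 1 := by
      rw [Nat.cast_sub (by omega)]; push_cast; ring
    have hlogr : Real.log r + (2 * r - 1) * Real.log p < L := by nlinarith
    have hlt : r * p ^ (2 * r - 1) < k := by
      have h1 : (r : ℝ) * (p : ℝ) ^ (2 * r - 1) < k := by
        rw [← Real.log_lt_log_iff (by positivity) hk0, Real.log_mul (by positivity) (by positivity),
          Real.log_pow, c2]
        exact hlogr
      exact_mod_cast h1
    have hpk : p < k := by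
      have h1 : (p : ℝ) < k := by
        rw [← Real.log_lt_log_iff hpp hk0]
        nlinarith
      exact_mod_cast h1
    have hp3 : 3 ≤ p := by
      by_contra hc
      push Not at hc
      have : (p : ℝ) ≤ 3 := by exact_mod_cast hc.le
      have h1 := Real.log_le_sub_one_of_pos hpp
      linarith
    have hk2 : k ^ 2 ≤ p ^ (4 * r - 1) := by
      have h1 : (k : ℝ) ^ 2 ≤ (p : ℝ) ^ (4 * r - 1) := by
        rw [← Real.log_le_log_iff (by positivity) (by positivity), Real.log_pow, Real.log_pow, c4]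
        push_cast
        nlinarith
      exact_mod_cast h1
    exact mem_filter.2 ⟨mem_range.2 hpk, hpr, hp3, hlt, hk2⟩
  have hdisj : ((range J : Finset ℕ) : Set ℕ).PairwiseDisjoint F := by
    have key : ∀ i j : ℕ, i < j → Disjoint (F i) (F j) := by
      intro i j hij
      rw [Finset.disjoint_left]
      intro p hpi hpj
      have h1 := (hFm i p hpi).2.2
      have h2 := (hFm j p hpj).2.1
      have h3 : (i : ℝ) + 1 ≤ j := by exact_mod_cast hij
      linarith
    intro i _ j _ hij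
    rcases lt_or_gt_of_ne hij with h | h
    · exact key i j h
    · exact (key j i h).symm
  have hbpos : 0 < b := by
    have : (0 : ℝ) ≤ J := Nat.cast_nonneg J
    linarith
  have hsum : ∑ i ∈ range J, (0.4 / b : ℝ) ≤ ∑ i ∈ range J, ∑ p ∈ F i, (1 : ℝ) / p := by
    apply sum_le_sum
    intro i hi
    have hiJ : (i : ℝ) + 1 ≤ J := by exact_mod_cast mem_range.1 hi
    have hi0 : (0 : ℝ) ≤ i := Nat.cast_nonneg i
    have h1 := interval (a + 2 * (i + 1)) (by linarith)
    rw [hF]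
    refine le_trans ?_ h1
    apply div_le_div_of_nonneg_left (by norm_num) (by linarith) (by linarith)
  calc 1 / (100 * (r : ℝ)) ≤ J * (0.4 / b) := by
        rw [← mul_div_assoc, div_le_div_iff₀ (by positivity) hbpos]
        have hJ0 : L - 24 * r ^ 2 ≤ 16 * r ^ 2 * J := by
          have h7 := mul_le_mul_of_nonneg_left hJ2 (by positivity : (0 : ℝ) ≤ 16 * r ^ 2)
          linarith
        have hr0 : (0 : ℝ) < r := by linarith
        have h4 : b * r ≤ L := by
          have h5 : b * r * r ≤ L * r := by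
            calc b * r * r = b * r ^ 2 := by ring
              _ ≤ L * r := hbr
          exact le_of_mul_le_mul_right h5 hr0
        have h6 : (1 * b) * r ≤ (J * 0.4 * (100 * r)) * r := by
          calc (1 * b) * r = b * r := by ring
            _ ≤ L := h4
            _ ≤ 2.5 * (L - 24 * r ^ 2) := by linarith [sq_nonneg (r : ℝ)]
            _ ≤ 2.5 * (16 * r ^ 2 * J) := by linarith
            _ = (J * 0.4 * (100 * r)) * r := by ring
        exact le_of_mul_le_mul_right h6 hr0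
    _ = ∑ i ∈ range J, (0.4 / b : ℝ) := by rw [sum_const, card_range, nsmul_eq_mul]
    _ ≤ ∑ i ∈ range J, ∑ p ∈ F i, (1 : ℝ) / p := hsum
    _ = ∑ p ∈ (range J).biUnion F, (1 : ℝ) / p := (sum_biUnion hdisj).symm
    _ ≤ ∑ p ∈ blk k r, (1 : ℝ) / p :=
        sum_le_sum_of_subset_of_nonneg hsub (fun _ _ _ => by positivity)

end Pool.Agent.H32.SKCHE
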