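import Pool.Agent.H46.SK.Targets

/-!
# MP_2fe131_nt, module LARGE: the part `n > N`
-/

namespace Pool.Agent.H32.SKLARGE

open SK Finset

theorem exists_s0 : ∃ s0 : ℕ, 21 ≤ s0 ∧
    ∀ s : ℕ, s0 ≤ s → 20000 * Real.log (s + 1) ^ 2 ≤ s := by
  have h := Real.isLittleO_pow_log_id_atTop (n := 2)
  have h2 := h.bound (c := 1 / 40000) (by norm_num)
  rw [Filter.eventually_atTop] at h2
  obtain ⟨x0, hx0⟩ := h2
  refine ⟨max 21 ⌈x0⌉₊, le_max_left _ _, ?_⟩
  intro s hs
  have h21 : (21 : ℝ) ≤ s := by exact_mod_cast (le_max_left _ _).trans hs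
  have h3 := hx0 (s + 1) (by
    have := Nat.le_ceil x0
    have h4 : (⌈x0⌉₊ : ℝ) ≤ s := by exact_mod_cast (le_max_right _ _).trans hs
    linarith)
  simp only [id, Real.norm_eq_abs] at h3
  rw [abs_of_nonneg (by positivity), abs_of_nonneg (by positivity)] at h3
  linarith

theorem swap_sum (k N U : ℕ) :
    ∑ n ∈ (odds k).filter (fun n => N < n), w k n * TU k U n =
    ∑ u ∈ (odds k).filter (fun u => u ≤ U), w k u *
      ∑ n ∈ (odds k).filter (fun n => N < n), w k n * eps k ((u : ZMod k) * (n : ZMod k)⁻¹) := by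
  unfold TU
  simp_rw [mul_sum]
  rw [sum_comm]
  apply sum_congr rfl
  intro u _
  apply sum_congr rfl
  intro n _
  ring

theorem bound1 (k L x : ℝ) (hk : 0 ≤ k) (hx : 1 ≤ x) (hL0 : 0 ≤ L) (hL : 1 + L ≤ 2 * x) :
    k * (1 + L) * (12 * k * (1 + L) / x ^ 2 + x ^ 7 * k / (x ^ 9 + 1)) ≤ 50 * k ^ 2 := by
  have hx0 : 0 < x := by linarith
  have a : 12 * k * (1 + L) / x ^ 2 ≤ 24 * k / x := by
    rw [div_le_div_iff₀ (by positivity) hx0]
    have := mul_le_mul_of_nonneg_left hL (by positivity : (0 : ℝ) ≤ 12 * k * x)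
    nlinarith
  have b : x ^ 7 * k / (x ^ 9 + 1) ≤ k / x := by
    rw [div_le_div_iff₀ (by positivity) hx0]
    have h1 : x ^ 8 ≤ x ^ 9 := pow_le_pow_right₀ hx (by norm_num)
    have h2 := mul_le_mul_of_nonneg_left h1 hk
    nlinarith
  calc k * (1 + L) * (12 * k * (1 + L) / x ^ 2 + x ^ 7 * k / (x ^ 9 + 1))
      ≤ k * (1 + L) * (24 * k / x + k / x) := by
        apply mul_le_mul_of_nonneg_left (add_le_add a b) (by positivity)
    _ = (25 * k ^ 2 / x) * (1 + L) := by ring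
    _ ≤ (25 * k ^ 2 / x) * (2 * x) := mul_le_mul_of_nonneg_left hL (by positivity)
    _ = 50 * k ^ 2 := by field_simp; ring

theorem bound2 (k L x E : ℝ) (hx : 1 ≤ x) (hL0 : 0 ≤ L) (hL : 1 + L ≤ 2 * x)
    (hE : E ≤ 1 / x) :
    k ^ 2 * (1 + L) * (100 * x ^ 2 * (1 + L) ^ 3 * (1 / x ^ 7 + 1 / x ^ 7) + E) ≤
      3202 * k ^ 2 := by
  have hx0 : 0 < x := by linarith
  have h3 : (1 + L) ^ 3 ≤ (2 * x) ^ 3 := pow_le_pow_left₀ (by linarith) hL 3
  have a : 100 * x ^ 2 * (1 + L) ^ 3 * (1 / x ^ 7 + 1 / x ^ 7) ≤ 1600 / x := by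
    calc 100 * x ^ 2 * (1 + L) ^ 3 * (1 / x ^ 7 + 1 / x ^ 7)
        ≤ 100 * x ^ 2 * (2 * x) ^ 3 * (1 / x ^ 7 + 1 / x ^ 7) := by
          apply mul_le_mul_of_nonneg_right _ (by positivity)
          exact mul_le_mul_of_nonneg_left h3 (by positivity)
      _ = 1600 / x ^ 2 := by field_simp; ring
      _ ≤ 1600 / x := by
          apply div_le_div_of_nonneg_left (by norm_num) hx0
          nlinarith
  calc k ^ 2 * (1 + L) * (100 * x ^ 2 * (1 + L) ^ 3 * (1 / x ^ 7 + 1 / x ^ 7) + E)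
      ≤ k ^ 2 * (1 + L) * (1600 / x + 1 / x) := by
        apply mul_le_mul_of_nonneg_left (add_le_add a hE) (by positivity)
    _ = (1601 * k ^ 2 / x) * (1 + L) := by ring
    _ ≤ (1601 * k ^ 2 / x) * (2 * x) := mul_le_mul_of_nonneg_left hL (by positivity)
    _ = 3202 * k ^ 2 := by field_simp; ring

theorem bound3 (x s N : ℝ) (hx : 1 ≤ Real.log x) (hx0 : 0 < x) (hN : N = s * Real.log 2)
    (hs : 1250 * Real.log x ^ 2 ≤ s) :
    (x ^ 7) ^ 8 * Real.exp (-(N / Real.log (x ^ 7))) ≤ 1 / x := by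
  have h1 : (x ^ 7) ^ 8 = Real.exp (56 * Real.log x) := by
    rw [← pow_mul]
    conv_lhs => rw [← Real.exp_log hx0]
    rw [← Real.exp_nat_mul]
    norm_num
  have h2 : 1 / x = Real.exp (- Real.log x) := by
    rw [Real.exp_neg, Real.exp_log hx0, one_div]
  rw [h1, h2, ← Real.exp_add, Real.exp_le_exp, Real.log_pow, hN]
  have h3 : 57 * Real.log x ≤ s * Real.log 2 / ((7 : ℕ) * Real.log x) := by
    rw [le_div_iff₀ (by push_cast; linarith)]
    push_cast
    have := Real.log_two_gt_d9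
    nlinarith
  linarith

theorem pf_LARGE (hWGT : TARGET_WGT) (hMIDR : TARGET_MIDR) (hFU : TARGET_FU) :
    TARGET_LARGE := by
  obtain ⟨C, K1, hC, hK1⟩ := hFU
  obtain ⟨s0, hs21, hs0⟩ := exists_s0
  refine ⟨3252 + 19 * C, max K1 ⌈Real.exp ((s0 : ℝ) ^ 4)⌉₊, by positivity, ?_⟩
  intro k hkp hk
  have hs21' : (21 : ℝ) ≤ s0 := by exact_mod_cast hs21
  have hkexp : Real.exp ((s0 : ℝ) ^ 4) ≤ k := by
    have h1 : (⌈Real.exp ((s0 : ℝ) ^ 4)⌉₊ : ℝ) ≤ k := by
      exact_mod_cast (le_max_right _ _).trans hk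
    exact (Nat.le_ceil _).trans h1
  have hk0 : (0 : ℝ) < k := lt_of_lt_of_le (Real.exp_pos _) hkexp
  obtain ⟨L, hL⟩ : ∃ L, L = Real.log k := ⟨_, rfl⟩
  have hLs : (s0 : ℝ) ^ 4 ≤ L := by
    rw [hL, Real.le_log_iff_exp_le hk0]
    exact hkexp
  have h214 : (194481 : ℝ) ≤ L := by
    calc (194481 : ℝ) = 21 ^ 4 := by norm_num
      _ ≤ (s0 : ℝ) ^ 4 := pow_le_pow_left₀ (by norm_num) hs21' 4
      _ ≤ L := hLs
  rw [← hL]
  obtain ⟨l, hl⟩ : ∃ l, l = ⌈L⌉₊ := ⟨_, rfl⟩
  rw [← hl]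
  have hLl : L ≤ l := by rw [hl]; exact Nat.le_ceil L
  have hl2 : (l : ℝ) ≤ 2 * L := by
    have := Nat.ceil_lt_add_one (a := L) (by linarith)
    rw [hl]
    linarith
  obtain ⟨m, hm⟩ : ∃ m, m = Nat.sqrt l := ⟨_, rfl⟩
  obtain ⟨s, hs⟩ : ∃ s, s = Nat.sqrt m := ⟨_, rfl⟩
  rw [← hm, ← hs]
  have hs0s : s0 ≤ s := by
    rw [hs, Nat.le_sqrt, hm, Nat.le_sqrt]
    have : ((s0 : ℝ) * s0) * (s0 * s0) ≤ l := by nlinarith
    exact_mod_cast this
  have hup : l < ((s + 1) * (s + 1)) * ((s + 1) * (s + 1)) := by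
    have h1 : l < (m + 1) * (m + 1) := by rw [hm]; exact Nat.lt_succ_sqrt l
    have h2 : m < (s + 1) * (s + 1) := by rw [hs]; exact Nat.lt_succ_sqrt m
    exact lt_of_lt_of_le h1 (Nat.mul_le_mul h2 h2)
  have hdn : (s * s) * (s * s) ≤ l := by
    have h1 : m * m ≤ l := by rw [hm]; exact Nat.sqrt_le l
    have h2 : s * s ≤ m := by rw [hs]; exact Nat.sqrt_le m
    exact (Nat.mul_le_mul h2 h2).trans h1
  have hs21s : (21 : ℝ) ≤ s := by exact_mod_cast hs21.trans hs0s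
  have hl0 : (194481 : ℝ) ≤ l := h214.trans hLl
  have hlpos : (0 : ℝ) < l := by linarith
  have hlog1 : 1 ≤ Real.log l := by
    rw [Real.le_log_iff_exp_le hlpos]
    have := Real.exp_one_lt_d9
    linarith
  have hlog4 : Real.log l ≤ 4 * Real.log (s + 1) := by
    have h1 : (l : ℝ) ≤ ((s : ℝ) + 1) ^ 4 := by
      have : (l : ℝ) ≤ (((s + 1) * (s + 1)) * ((s + 1) * (s + 1)) : ℕ) := by
        exact_mod_cast hup.le
      push_cast at this
      calc (l : ℝ) ≤ _ := this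
        _ = ((s : ℝ) + 1) ^ 4 := by ring
    calc Real.log l ≤ Real.log (((s : ℝ) + 1) ^ 4) := Real.log_le_log hlpos h1
      _ = 4 * Real.log (s + 1) := by rw [Real.log_pow]; push_cast; ring
  have hkey : 1250 * Real.log l ^ 2 ≤ s := by
    have h1 := hs0 s hs0s
    have h2 : Real.log l ^ 2 ≤ (4 * Real.log (s + 1)) ^ 2 :=
      pow_le_pow_left₀ (by linarith) hlog4 2
    nlinarith
  have hHN : l ^ 2 ≤ 2 ^ s := by
    have h1 : (l : ℝ) ^ 2 ≤ 2 ^ s := by
      rw [← Real.log_le_log_iff (by positivity) (by positivity), Real.log_pow, Real.log_pow]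
      have := Real.log_two_gt_d9
      push_cast
      nlinarith
    exact_mod_cast h1
  have hNk : 2 ^ s < k := by
    have h1 : (2 : ℝ) ^ s < k := by
      rw [← Real.log_lt_log_iff (by positivity) hk0, Real.log_pow, ← hL]
      have h2 := Real.log_two_lt_d9
      have h3 : ((s : ℝ) * s) * (s * s) ≤ l := by exact_mod_cast hdn
      have h4 : (s : ℝ) * 9261 ≤ (s * s) * (s * s) := by
        have : (9261 : ℝ) ≤ (s : ℝ) ^ 3 := by
          calc (9261 : ℝ) = 21 ^ 3 := by norm_num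
            _ ≤ (s : ℝ) ^ 3 := pow_le_pow_left₀ (by norm_num) hs21s 3
        have h5 := mul_le_mul_of_nonneg_left this (by linarith : (0 : ℝ) ≤ s)
        calc (s : ℝ) * 9261 ≤ s * s ^ 3 := h5
          _ = (s * s) * (s * s) := by ring
      have h6 : (s : ℝ) * Real.log 2 ≤ s := by nlinarith
      linarith
    exact_mod_cast h1
  have hk2 : k ≠ 2 := by
    intro hc
    rw [hc] at hNk
    have : 2 ^ 1 ≤ 2 ^ s := Nat.pow_le_pow_right (by norm_num) (by
      have := hs21.trans hs0s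
      omega)
    omega
  have hk3 : 3 ≤ k := by
    have := hkp.out.two_le
    omega
  have hl1n : 1 ≤ l := by exact_mod_cast (by linarith : (1 : ℝ) ≤ l)
  have hl2n : 2 ≤ l := by exact_mod_cast (by linarith : (2 : ℝ) ≤ l)
  have hM := hMIDR k hk2 (l ^ 2) (l ^ 7) (l ^ 9) (l ^ 7) (2 ^ s) (Nat.one_le_pow _ _ hl1n)
    (lt_of_le_of_lt hHN hNk) (Nat.one_le_pow _ _ hl1n)
    (by
      calc 21 ≤ 2 ^ 7 := by norm_num
        _ ≤ l ^ 7 := Nat.pow_le_pow_left hl2n 7) hHN
  rw [← hL] at hM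
  push_cast at hM
  have hLog : Real.log ((2 : ℝ) ^ s) = s * Real.log 2 := Real.log_pow _ _
  have hLl2 : 1 + L ≤ 2 * l := by linarith
  have hL0 : 0 ≤ L := by linarith
  have hl1 : (1 : ℝ) ≤ l := by linarith
  have b1 := bound1 k L l hk0.le hl1 hL0 hLl2
  have b3 := bound3 l s (Real.log ((2 : ℝ) ^ s)) hlog1 hlpos hLog hkey
  have b2 := bound2 k L l _ hl1 hL0 hLl2 b3
  -- the second part
  obtain ⟨_, _, _, _, hw5, _⟩ := hWGT k hk3
  obtain ⟨hw1, _⟩ := hWGT k hk3
  have hlogL : 1 ≤ Real.log L := by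
    rw [Real.le_log_iff_exp_le (by linarith)]
    have := Real.exp_one_lt_d9
    linarith
  have hpart2 : |∑ n ∈ (odds k).filter (fun n => 2 ^ s < n), w k n * TU k (l ^ 9) n| ≤
      19 * C * ((k : ℝ) ^ 2 * L / Real.log L) := by
    rw [swap_sum]
    have hodd : ∀ u ∈ odds k, 0 < u ∧ u < k := by
      intro u hu
      have := mem_filter.1 hu
      have h2 := mem_range.1 this.1
      have h3 := this.2
      omega
    calc |∑ u ∈ (odds k).filter (fun u => u ≤ l ^ 9), w k u *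
          ∑ n ∈ (odds k).filter (fun n => 2 ^ s < n),
            w k n * eps k ((u : ZMod k) * (n : ZMod k)⁻¹)|
        ≤ ∑ u ∈ (odds k).filter (fun u => u ≤ l ^ 9), |w k u *
          ∑ n ∈ (odds k).filter (fun n => 2 ^ s < n),
            w k n * eps k ((u : ZMod k) * (n : ZMod k)⁻¹)| := abs_sum_le_sum_abs _ _
      _ ≤ ∑ u ∈ (odds k).filter (fun u => u ≤ l ^ 9), w k u *
          (C * k * L / (Real.log L) ^ 2) := by
          apply sum_le_sum
          intro u hu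
          have hu' := (mem_filter.1 hu).1
          have hwu := hw1 u (hodd u hu').1 (hodd u hu').2
          rw [abs_mul, abs_of_pos hwu]
          have := hK1 k ((le_max_left _ _).trans hk) (2 ^ s) u hu'
          rw [← hL] at this
          exact mul_le_mul_of_nonneg_left this hwu.le
      _ = (∑ u ∈ (odds k).filter (fun u => u ≤ l ^ 9), w k u) *
          (C * k * L / (Real.log L) ^ 2) := by rw [sum_mul]
      _ ≤ (k * (1 + Real.log ((l ^ 9 : ℕ) : ℝ))) * (C * k * L / (Real.log L) ^ 2) := by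
          apply mul_le_mul_of_nonneg_right (hw5 (l ^ 9) (Nat.one_le_pow _ _ hl1n))
          positivity
      _ ≤ (k * (19 * Real.log L)) * (C * k * L / (Real.log L) ^ 2) := by
          apply mul_le_mul_of_nonneg_right _ (by positivity)
          apply mul_le_mul_of_nonneg_left _ hk0.le
          push_cast
          rw [Real.log_pow]
          have h1 : Real.log l ≤ Real.log (L ^ 2) := by
            apply Real.log_le_log hlpos
            nlinarith
          rw [Real.log_pow] at h1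
          push_cast at h1 ⊢
          linarith
      _ = 19 * C * ((k : ℝ) ^ 2 * L / Real.log L) := by
          field_simp
  have hsplit : ∑ n ∈ (odds k).filter (fun n => 2 ^ s < n), w k n * T k n =
      ∑ n ∈ (odds k).filter (fun n => 2 ^ s < n), w k n * (T k n - TU k (l ^ 9) n) +
      ∑ n ∈ (odds k).filter (fun n => 2 ^ s < n), w k n * TU k (l ^ 9) n := by
    rw [← sum_add_distrib]
    apply sum_congr rfl
    intro n _
    ring
  rw [hsplit]
  have hLL : 1 ≤ L / Real.log L := by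
    rw [le_div_iff₀ (by linarith)]
    have := Real.log_le_sub_one_of_pos (by linarith : 0 < L)
    linarith
  have hk2' : (k : ℝ) ^ 2 ≤ (k : ℝ) ^ 2 * L / Real.log L := by
    rw [mul_div_assoc]
    exact le_mul_of_one_le_right (by positivity) hLL
  calc |∑ n ∈ (odds k).filter (fun n => 2 ^ s < n), w k n * (T k n - TU k (l ^ 9) n) +
      ∑ n ∈ (odds k).filter (fun n => 2 ^ s < n), w k n * TU k (l ^ 9) n|
      ≤ |∑ n ∈ (odds k).filter (fun n => 2 ^ s < n), w k n * (T k n - TU k (l ^ 9) n)| +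
      |∑ n ∈ (odds k).filter (fun n => 2 ^ s < n), w k n * TU k (l ^ 9) n| := abs_add_le _ _
    _ ≤ 3252 * (k : ℝ) ^ 2 + 19 * C * ((k : ℝ) ^ 2 * L / Real.log L) := by
        apply add_le_add _ hpart2
        refine hM.trans ?_
        linarith
    _ ≤ 3252 * ((k : ℝ) ^ 2 * L / Real.log L) + 19 * C * ((k : ℝ) ^ 2 * L / Real.log L) := by
        linarith
    _ = (3252 + 19 * C) * (k : ℝ) ^ 2 * L / Real.log L := by ring

end Pool.Agent.H32.SKLARGE
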